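import Mathlib
import Pool.Agent.Y714.KF.Stm

/-! (CRT): sets of residues given by conditions at several primes. -/

set_option autoImplicit false

namespace Pool.Agent.Y379.KF

open Pool.Agent.Y714.KF

theorem crt2 {ι : Type} {m n : ℕ} (h : m.Coprime n) (T : Set (ι → ZMod m))
    (U : Set (ι → ZMod n)) :
    ∃ V : Set (ι → ZMod (m * n)), (∀ z : ι → ℤ, (fun i => (z i : ZMod (m * n))) ∈ V ↔
      (fun i => (z i : ZMod m)) ∈ T ∧ (fun i => (z i : ZMod n)) ∈ U) ∧
      V.ncard = T.ncard * U.ncard := by
  let e : (ι → ZMod (m * n)) ≃ (ι → ZMod m) × (ι → ZMod n) :=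
    (Equiv.piCongrRight fun _ => (ZMod.chineseRemainder h).toEquiv).trans
      (Equiv.arrowProdEquivProdArrow ι _ _)
  refine ⟨e ⁻¹' (T ×ˢ U), ?_, ?_⟩
  · intro z
    have h1 : e (fun i => (z i : ZMod (m * n))) =
        (fun i => (z i : ZMod m), fun i => (z i : ZMod n)) := by
      have h2 : ∀ i, ZMod.chineseRemainder h (z i : ZMod (m * n)) =
          ((z i : ZMod m), (z i : ZMod n)) := by
        intro i
        rw [map_intCast]
        rfl
      apply Prod.ext
      · funext i
        exact congrArg Prod.fst (h2 i)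
      · funext i
        exact congrArg Prod.snd (h2 i)
    rw [Set.mem_preimage, h1]
    rfl
  · rw [Set.ncard_preimage_of_injective_subset_range e.injective (by simp), Set.ncard_prod]

theorem crt : S_CRT := by
  classical
  intro ι _ S hS T
  have key : ∀ S : Finset ℕ, (∀ p ∈ S, p.Prime) → ∀ n : ℕ, n = ∏ p ∈ S, p →
      ∃ U : Set (ι → ZMod n), (∀ z : ι → ℤ, (fun i => (z i : ZMod n)) ∈ U ↔
        ∀ p ∈ S, (fun i => (z i : ZMod p)) ∈ T p) ∧ U.ncard = ∏ p ∈ S, (T p).ncard := by
    intro S
    induction S using Finset.induction_on with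
    | empty =>
      intro _ n hn
      rw [Finset.prod_empty] at hn
      subst hn
      refine ⟨Set.univ, by simp, ?_⟩
      rw [Set.ncard_univ, Finset.prod_empty, Nat.card_eq_one_iff_unique]
      exact ⟨inferInstance, inferInstance⟩
    | insert p S hp ih =>
      intro hS n hn
      rw [Finset.prod_insert hp] at hn
      subst hn
      obtain ⟨U, hU, hUc⟩ := ih (fun q hq => hS q (Finset.mem_insert_of_mem hq)) _ rfl
      have hco : p.Coprime (∏ q ∈ S, q) := by
        rw [Nat.coprime_prod_right_iff]
        intro q hq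
        rw [Nat.coprime_primes (hS p (Finset.mem_insert_self _ _))
          (hS q (Finset.mem_insert_of_mem hq))]
        rintro rfl
        exact hp hq
      obtain ⟨V, hV, hVc⟩ := crt2 hco (T p) U
      refine ⟨V, ?_, ?_⟩
      · intro z
        rw [hV, hU, Finset.forall_mem_insert]
      · rw [hVc, hUc, Finset.prod_insert hp]
  exact key S hS _ rfl

end Pool.Agent.Y379.KF
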