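import Mathlib
import Pool.Agent.Y714.KF.Stm

/-! (BOX): points of a box in residue classes. -/

set_option autoImplicit false

namespace Pool.Agent.Y379.KF

open Pool.Agent.Y714.KF

theorem class1 {p : ℕ} (hp : 1 ≤ p) (L : ℝ) (hL : 0 ≤ L) (t : ZMod p) :
    ∃ A : Finset ℤ, (∀ k : ℤ, (|(k : ℝ)| ≤ L ∧ (k : ZMod p) = t) → k ∈ A) ∧
      (A.card : ℝ) ≤ 2 * L / p + 2 := by
  classical
  have hp0 : (0 : ℝ) < p := by exact_mod_cast hp
  have hpz : (0 : ℤ) < p := by exact_mod_cast hp
  set m : ℤ := ⌊L / p⌋ with hm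
  have hm0 : 0 ≤ m := Int.floor_nonneg.2 (by positivity)
  refine ⟨(Finset.Icc (-m - 1) m).image (fun q => p * q + (t.val : ℤ)), ?_, ?_⟩
  · rintro k ⟨hk, hkt⟩
    rw [Finset.mem_image]
    have : NeZero p := ⟨by omega⟩
    have h1 : k % p = (t.val : ℤ) := by
      rw [← hkt, ZMod.val_intCast]
    refine ⟨k / p, ?_, ?_⟩
    · rw [abs_le] at hk
      rw [Finset.mem_Icc]
      have h2 : p * (k / p) + k % p = k := Int.mul_ediv_add_emod k p
      have h3 : 0 ≤ k % p := Int.emod_nonneg _ (by omega)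
      have h4 : k % p < p := Int.emod_lt_of_pos _ hpz
      have h5 : ((k / p : ℤ) : ℝ) * p ≤ L := by
        have : ((k / p : ℤ) : ℝ) * p ≤ (k : ℝ) := by
          have : (k / p) * p ≤ k := by nlinarith
          exact_mod_cast this
        linarith [hk.2]
      have h6 : -L < (((k / p : ℤ) : ℝ) + 1) * p := by
        have : (k : ℝ) < (((k / p : ℤ) : ℝ) + 1) * p := by
          have : k < (k / p + 1) * p := by nlinarith
          exact_mod_cast this
        linarith [hk.1]
      constructor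
      · have h7 : (-(k / p) - 1 : ℤ) ≤ m := by
          rw [hm, Int.le_floor, le_div_iff₀ hp0]
          push_cast
          nlinarith
        omega
      · rw [hm, Int.le_floor, le_div_iff₀ hp0]
        exact h5
    · rw [← h1]
      exact Int.mul_ediv_add_emod k p
  · have h1 : (((Finset.Icc (-m - 1) m).image (fun q => p * q + (t.val : ℤ))).card : ℝ) ≤
        ((Finset.Icc (-m - 1) m).card : ℝ) := by exact_mod_cast Finset.card_image_le
    have h2 : ((Finset.Icc (-m - 1) m).card : ℝ) = 2 * m + 2 := by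
      rw [Int.card_Icc]
      have : ((m + 1 - (-m - 1)).toNat : ℤ) = 2 * m + 2 := by
        rw [Int.toNat_of_nonneg (by omega)]; ring
      exact_mod_cast this
    have h3 : (m : ℝ) ≤ L / p := Int.floor_le _
    have h4 : 2 * L / p = 2 * (L / p) := by ring
    rw [h4]
    linarith

theorem box : S_BOX := by
  classical
  intro ι _ R hR
  refine ⟨(2 * R + 2) ^ Fintype.card ι, by positivity, ?_⟩
  intro p hp Y hY T
  have hp0 : (0 : ℝ) < p := by exact_mod_cast hp
  have hY0 : 0 < Y := lt_of_lt_of_le hp0 hY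
  have hYp : 1 ≤ Y / p := (one_le_div₀ hp0).2 hY
  have : NeZero p := ⟨by omega⟩
  choose A hA hAc using fun t : ZMod p => class1 hp (R * Y) (by positivity) t
  have hTf : T.Finite := Set.toFinite T
  set F : Finset (ι → ℤ) := hTf.toFinset.biUnion
    (fun t => Fintype.piFinset fun i => A (t i)) with hF
  have hsub : {z : ι → ℤ | ‖z‖ ≤ R * Y ∧ (fun i => (z i : ZMod p)) ∈ T} ⊆ (F : Set (ι → ℤ)) := by
    rintro z ⟨hz, hzT⟩
    rw [Finset.mem_coe, hF, Finset.mem_biUnion]
    refine ⟨fun i => (z i : ZMod p), hTf.mem_toFinset.2 hzT, ?_⟩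
    rw [Fintype.mem_piFinset]
    intro i
    apply hA
    refine ⟨?_, rfl⟩
    have h1 := norm_le_pi_norm z i
    rw [Int.norm_eq_abs] at h1
    exact h1.trans hz
  refine ⟨Set.Finite.subset (Finset.finite_toSet F) hsub, ?_⟩
  have h1 : {z : ι → ℤ | ‖z‖ ≤ R * Y ∧ (fun i => (z i : ZMod p)) ∈ T}.ncard ≤ F.card := by
    have := Set.ncard_le_ncard hsub (Finset.finite_toSet F)
    rwa [Set.ncard_coe_finset] at this
  have h2 : (F.card : ℝ) ≤ ∑ t ∈ hTf.toFinset, ((2 * R + 2) * (Y / p)) ^ Fintype.card ι := by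
    have h3 : (F.card : ℝ) ≤ ∑ t ∈ hTf.toFinset,
        ((Fintype.piFinset fun i => A (t i)).card : ℝ) := by
      exact_mod_cast Finset.card_biUnion_le
    refine h3.trans (Finset.sum_le_sum ?_)
    intro t _
    rw [Fintype.card_piFinset]
    push_cast
    have h4 : ∀ i ∈ (Finset.univ : Finset ι), ((A (t i)).card : ℝ) ≤ (2 * R + 2) * (Y / p) := by
      intro i _
      refine (hAc (t i)).trans ?_
      have : 2 * (R * Y) / p = 2 * R * (Y / p) := by ring
      rw [this]
      nlinarith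
    refine (Finset.prod_le_prod (fun i _ => by positivity) h4).trans ?_
    rw [Finset.prod_const, Finset.card_univ]
  have h5 : (hTf.toFinset.card : ℝ) = T.ncard := by
    rw [Set.ncard_eq_toFinset_card T hTf]
  rw [Finset.sum_const, nsmul_eq_mul, h5, mul_pow] at h2
  calc ({z : ι → ℤ | ‖z‖ ≤ R * Y ∧ (fun i => (z i : ZMod p)) ∈ T}.ncard : ℝ)
      ≤ (F.card : ℝ) := by exact_mod_cast h1
    _ ≤ _ := h2
    _ = _ := by ring

end Pool.Agent.Y379.KF
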